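import Pool.Agent.H51.IR.Few

set_option linter.style.longLine false

/-! A criterion for the copies around a parameter to shrink to a point. -/

namespace Pool.Agent.Results.MP_b511e9_an.ShapeCriterion

open Filter Topology MeasureTheory ENNReal
open Pool.Agent.H51.IR

theorem result (μ : Measure ℂ) [IsLocallyFiniteMeasure μ] (φ : ℝ≥0∞ → ℝ≥0∞) (hφ : Monotone φ)
    (hφ0 : ∀ t, 0 < t → 0 < φ t) (m : ℕ) (c : ℂ)
    (h : ∑' p : periods c, μ (few m p c) / φ (Metric.ediam (copy p c)) = ⊤) :
    Tendsto (fun p => Metric.ediam (copy p c)) (atTop ⊓ 𝓟 (periods c)) (𝓝 0) ∧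
    ⋂ p ∈ periods c, closure (copy p c) = {c} := by
  have key : ∀ δ : ℝ≥0∞, 0 < δ → ∃ p ∈ periods c, Metric.ediam (copy p c) < δ := by
    intro δ hδ
    by_contra hcon
    push Not at hcon
    have h1 : ∑' p : periods c, μ (few m p c) / φ (Metric.ediam (copy p c)) ≤
        (φ δ)⁻¹ * ∑' p : periods c, μ (few m p c) := by
      rw [← ENNReal.tsum_mul_left]
      refine ENNReal.tsum_le_tsum fun p => ?_
      rw [ENNReal.div_eq_inv_mul]
      exact mul_le_mul_left (ENNReal.inv_le_inv.2 (hφ (hcon p p.2))) _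
    rw [h, top_le_iff] at h1
    refine ENNReal.mul_ne_top (ENNReal.inv_ne_top.2 (hφ0 δ hδ).ne') ?_ h1
    refine ne_top_of_le_ne_top ?_ (tsum_few_le μ m c)
    exact ENNReal.mul_ne_top (by finiteness) (nest μ).fin
  constructor
  · rw [ENNReal.tendsto_nhds_zero]
    intro δ hδ
    obtain ⟨p, -, hp⟩ := key δ hδ
    rw [eventually_inf_principal]
    filter_upwards [eventually_ge_atTop p] with q hq _
    exact (Metric.ediam_mono (copy_anti c hq)).trans hp.le
  · apply Set.Subset.antisymm
    · intro x hx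
      rw [Set.mem_singleton_iff]
      by_contra hxc
      have h2 : 0 < edist x c := edist_pos.2 hxc
      obtain ⟨p, hp, hlt⟩ := key _ h2
      rw [Set.mem_iInter₂] at hx
      have h3 := Metric.edist_le_ediam_of_mem (hx p hp) (subset_closure (mem_copy p c))
      rw [Metric.ediam_closure] at h3
      exact absurd hlt (not_lt.2 h3)
    · rintro x rfl
      rw [Set.mem_iInter₂]
      exact fun p _ => subset_closure (mem_copy p x)

end Pool.Agent.Results.MP_b511e9_an.ShapeCriterion
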