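import Pool.Agent.H51.IR.Few

set_option linter.style.longLine false

/-! Summable defects around almost every infinitely renormalizable parameter. -/

namespace Pool.Agent.Results.MP_b511e9_an.SummableDefects

open Filter Topology MeasureTheory ENNReal
open Pool.Agent.H51.IR

theorem result (μ : Measure ℂ) [IsLocallyFiniteMeasure μ] (m : ℕ) :
    (∀ p₀ : ℕ, Measurable fun c => ∑' p : {p | p ∈ periods c ∧ p₀ ≤ p},
      μ (few m p c) / μ (copy p c)) ∧
    (∀ (p₀ : ℕ) (c₀ : ℂ), ∫⁻ c in copy p₀ c₀, ∑' p : {p | p ∈ periods c ∧ p₀ ≤ p},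
      μ (few m p c) / μ (copy p c) ∂μ ≤ ((m : ℝ≥0∞) + 1) * μ (copy p₀ c₀ \ infRenorm)) ∧
    ∀ᵐ c ∂μ, ∑' p : periods c, μ (few m p c) / μ (copy p c) < ⊤ := by
  refine ⟨measurable_defect μ m, ?_, ?_⟩
  · intro p₀ c₀
    calc ∫⁻ c in copy p₀ c₀, ∑' p : {p | p ∈ periods c ∧ p₀ ≤ p},
          μ (few m p c) / μ (copy p c) ∂μ
        ≤ ∫⁻ c in copy p₀ c₀, ∑' p : {p | c ∈ renormSet p ∧ p₀ ≤ p},
          μ (copy p c ∩ fewSet renormSet m p) / μ (copy p c) ∂μ := by
          refine lintegral_mono fun c => ENNReal.tsum_le_tsum fun p => ?_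
          exact ENNReal.div_le_div_right (measure_mono (few_subset p.2.1)) _
      _ ≤ ((m : ℝ≥0∞) + 1) * μ ((copy p₀ c₀ ∩ ⋃ p, renormSet p) \ infSet renormSet) :=
          (nest μ).lintegral_le m p₀ c₀
      _ ≤ _ := by
          rw [infSet_renormSet]
          exact mul_le_mul_right
            (measure_mono (Set.sdiff_subset_sdiff_left Set.inter_subset_left)) _
  · have h1 := (nest μ).summable (fewSet renormSet m) (measurableSet_fewSet (nest μ) m)
      (by
        have h2 := (nest μ).tsum_measure_fewSet_le m MeasurableSet.univ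
        simp only [Set.univ_inter] at h2
        refine ne_top_of_le_ne_top (ENNReal.mul_ne_top (by finiteness) ?_) h2
        exact ne_top_of_le_ne_top (nest μ).fin (measure_mono Set.sdiff_subset))
    filter_upwards [h1] with c hc
    refine lt_of_le_of_lt (ENNReal.tsum_le_tsum fun p => ?_) hc.lt_top
    exact ENNReal.div_le_div_right (measure_mono (few_subset p.2)) _

end Pool.Agent.Results.MP_b511e9_an.SummableDefects
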