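import Pool.Agent.H51.IR.Copies

set_option linter.style.longLine false

/-! A zero-one law for combinatorial sets of renormalizable parameters of the quadratic family. -/

namespace Pool.Agent.Results.MP_b511e9_an.ZeroOneLaw

open Filter Topology MeasureTheory ENNReal
open Pool.Agent.H51.IR

theorem result (μ : Measure ℂ) [IsLocallyFiniteMeasure μ] :
    (∀ p, MeasurableSet {c | IsRenorm p c}) ∧ (∀ p c, MeasurableSet (copy p c)) ∧
    (∀ p, MeasurableSet[combSigma] {c | IsRenorm p c}) ∧ MeasurableSet[combSigma] infRenorm ∧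
    (∀ E : Set ℂ, MeasurableSet[combSigma] E → ∀ᵐ c ∂μ, c ∈ E → (∃ q, IsRenorm q c) →
      Tendsto (fun p => μ (copy p c \ E) / μ (copy p c)) atTop (𝓝 0)) ∧
    (∀ E : Set ℂ, MeasurableSet[combSigma] E → (∀ c ∈ E, ∃ q, IsRenorm q c) →
      (μ E = 0 ↔ ∀ᵐ c ∂μ, c ∈ E →
        ∃ ε : ℝ≥0∞, 0 < ε ∧ {p | ε * μ (copy p c) < μ (copy p c \ E)}.Infinite)) := by
  have h1 : ∀ E : Set ℂ, MeasurableSet[combSigma] E → ∀ᵐ c ∂μ, c ∈ E → (∃ q, IsRenorm q c) →
      Tendsto (fun p => μ (copy p c \ E) / μ (copy p c)) atTop (𝓝 0) :=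
    fun E hE => (nest μ).levy hE
  refine ⟨measurableSet_isRenorm, measurableSet_copy, combSigma_renormSet, combSigma_infRenorm,
    h1, fun E hE hER => ⟨fun h => ?_, fun h => ?_⟩⟩
  · rw [measure_eq_zero_iff_ae_notMem] at h
    filter_upwards [h] with c hc hc2
    exact absurd hc2 hc
  · rw [measure_eq_zero_iff_ae_notMem]
    filter_upwards [h, h1 E hE] with c h2 h3 hc
    obtain ⟨ε, hε, hinf⟩ := h2 hc
    obtain ⟨q, hq⟩ := hER c hc
    have h4 := (ENNReal.tendsto_nhds_zero.1 (h3 hc ⟨q, hq⟩)) ε hε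
    rw [eventually_atTop] at h4
    obtain ⟨N, hN⟩ := h4
    obtain ⟨p, hlt, hNp⟩ := hinf.exists_gt (max N q)
    have h5 := hN p ((le_max_left N q).trans hNp.le)
    have hqp : q ≤ p := (le_max_right N q).trans hNp.le
    have h6 : μ (copy p c) ≠ ⊤ := ne_top_of_le_ne_top (nest μ).fin (measure_mono fun c' hc' =>
      Set.mem_iUnion.2 ⟨q, (copy_subset p c hc' q hqp).2 hq⟩)
    have hlt : ε * μ (copy p c) < μ (copy p c \ E) := hlt
    have h7 : μ (copy p c) ≠ 0 := by
      intro h0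
      rw [h0, mul_zero] at hlt
      exact absurd (measure_mono_null Set.sdiff_subset h0) hlt.ne'
    rw [ENNReal.div_le_iff h7 h6] at h5
    exact absurd hlt (not_lt.2 h5)

end Pool.Agent.Results.MP_b511e9_an.ZeroOneLaw
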